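import Pool.Agent.H895Z.IndepMain

set_option autoImplicit false

/-! The non-meager independence number equals `non(meager)`. -/

namespace Pool.Agent.Results.MP_fb02e9_lc.EqualsNonMeager

open Pool.Agent.H895Z.Indep

theorem result : iM = nonM ∧
    ∃ 𝒜 : Set (ℕ → Bool), IsIndep 𝒜 ∧ ¬ IsMeagre 𝒜 ∧ Cardinal.mk 𝒜 = nonM :=
  main

end Pool.Agent.Results.MP_fb02e9_lc.EqualsNonMeager
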